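import Pool.Agent.H.MP_2fd452_lc.B

set_option autoImplicit false

namespace Pool.Agent.Results.MP_2fd452_lc.Full

open Pool.Agent.Lib.CX Pool.Agent.H.MP_2fd452_lc

/-- the distance from `v` to class number `c` of the ordered partition `φ` -/
noncomputable def rep {V : Type} (G : SimpleGraph V) {k : ℕ} (φ : V → Fin k) (v : V) (c : Fin k) : ℕ :=
  sInf (G.dist v '' {s | φ s = c})

/-- the partition dimension: partitions into `k` nonempty classes are the surjections onto `Fin k` -/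
noncomputable def pd {V : Type} (G : SimpleGraph V) : ℕ :=
  sInf {k | ∃ φ : V → Fin k, Function.Surjective φ ∧ Function.Injective (rep G φ)}

lemma dist (a : Gr) {k : ℕ} {φ : Fin (red a).1.n → Fin k} (hφ : Function.Surjective φ) (f : X → ℕ)
    (hf : ∀ i, f (em a i) = φ i) : ∃ D, Dist a.n a.2 k f D ∧ ∀ i (c : Fin k), D (em a i) c = rep (red a).1.G φ i c := by
  classical
  obtain ⟨D, e⟩ : ∃ D : H.MP_2fd452_lc.X → ℕ → ℕ, ∀ i (c : Fin k), D (em a i) c = rep (red a).1.G φ i c :=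
    ⟨fun x c => if h : c < k ∧ ∃ i, em a i = x then rep (red a).1.G φ h.2.choose ⟨c, h.1⟩ else 0,
      fun i c => by simp [(em_inj a).eq_iff]⟩
  refine ⟨D, fun x c hx hc => ?_, e⟩
  obtain ⟨i, rfl⟩ := (em_mem a x).1 hx
  obtain ⟨h1, h2, h3⟩ := rp_spec (red_tree a).connected hφ i ⟨c, hc⟩
  rw [e i ⟨c, hc⟩, hf]
  refine ⟨h1.trans Fin.ext_iff, fun y hy h => ?_, fun h => ?_⟩
  · obtain ⟨j, rfl⟩ := (em_mem a y).1 hy
    exact e j ⟨c, hc⟩ ▸ h2 j ((em_adj ..).2 h)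
  · obtain ⟨j, a1, a2⟩ := h3 fun h' => h (congrArg Fin.val h')
    exact ⟨_, (em_mem ..).2 ⟨j, rfl⟩, (em_adj ..).1 a1, e j ⟨c, hc⟩ ▸ a2⟩

theorem result : NPHard fun a : {a : Gr × ℕ // a.1.G.IsTree ∧ 0 < a.2} => pd a.1.1.G ≤ a.1.2 := by
  classical
  refine col3_hard.red ⟨fun a => ⟨red a, red_tree a, by simp [red]⟩, PT.subtype red_pt _, fun a => ⟨?_, fun h => ?_⟩⟩
  · rintro ⟨c⟩
    let ψ : ℕ → ℕ := fun v => if h : v < a.n then c ⟨v, h⟩ + 1 else 1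
    let φ : Fin (red a).1.n → Fin (2 * a.n + 6) := fun i => ⟨col a.n ψ (em a i), col_lt ((em_mem ..).2 ⟨i, rfl⟩)⟩
    have h1 : Function.Surjective φ := fun c => by
      obtain ⟨x, h1, h2⟩ := col_surj (E := a.2) (ψ := ψ) c.2
      obtain ⟨i, rfl⟩ := (em_mem a x).1 h1
      exact ⟨i, Fin.ext h2⟩
    obtain ⟨D, h2, h3⟩ := dist a h1 (col a.n ψ) fun _ => rfl
    refine Nat.sInf_le ⟨φ, h1, fun i j e => em_inj a (forw (fun v => by simp only [ψ]; split_ifs <;> omega)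
      (fun e he a1 a2 a3 => ?_) h2 _ _ ((em_mem ..).2 ⟨i, rfl⟩) ((em_mem ..).2 ⟨j, rfl⟩) fun c hc => ?_)⟩
    · simpa [ψ, a1, a2, Fin.val_inj] using c.valid ((a.adj_iff ⟨_, a1⟩ ⟨_, a2⟩).2 ⟨a3, .inl he⟩)
    · exact (h3 i ⟨c, hc⟩).trans ((congrFun e _).trans (h3 j ⟨c, hc⟩).symm)
  obtain ⟨φ, h1, h2⟩ : ∃ φ : _ → Fin (pd (red a).1.G), _ := Nat.sInf_mem (s := {k | ∃ φ : _ → Fin k,
      Function.Surjective φ ∧ Function.Injective (rep (red a).1.G φ)}) ⟨_, id, Function.surjective_id, fun i j e => by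
    have := congrFun e i
    simpa [rep, eq_comm (a := 0), (red_tree a).connected.dist_eq_zero_iff, eq_comm (a := j)] using this⟩
  obtain ⟨f, e⟩ : ∃ f : H.MP_2fd452_lc.X → ℕ, ∀ i, f (em a i) = φ i :=
    ⟨fun x => if h : ∃ i, em a i = x then (φ h.choose).1 else 0, fun i => by simp [(em_inj a).eq_iff]⟩
  obtain ⟨D, h3, h4⟩ := dist a h1 f e
  obtain ⟨R, ψ, a1, a2, a3⟩ := back h (fun x hx => by
    obtain ⟨i, rfl⟩ := (em_mem a x).1 hx
    exact e i ▸ (φ i).2) h3 fun x y hx hy h => by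
      obtain ⟨i, rfl⟩ := (em_mem a x).1 hx
      obtain ⟨j, rfl⟩ := (em_mem a y).1 hy
      rw [h2 (funext fun c => by rw [← h4, ← h4, h c c.2] : rep _ φ i = rep _ φ j)]
  have := (SimpleGraph.Coloring.mk (G := a.G) (fun v => (⟨ψ v, a2 v v.2⟩ : R)) fun {u v} h e => by
    obtain ⟨b1, b2 | b2⟩ := (a.adj_iff u v).1 h
    exacts [a3 _ b2 u.2 v.2 b1 (congrArg Subtype.val e), a3 _ b2 v.2 u.2 b1.symm (congrArg Subtype.val e).symm]).colorable
  rwa [Fintype.card_coe, a1] at this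

end Pool.Agent.Results.MP_2fd452_lc.Full
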